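import Pool.Agent.H25.CBase

set_option autoImplicit false

namespace Pool.Agent.Results.MP_cb63a5_lc.NPHard
open Pool.Agent.H11.PT Pool.Agent.H25.CB Finset

/-- vertex names -/
abbrev V := ℕ × ℕ × ℕ

/-- the edge set given by a list -/
def edges (E : List (V × V)) : Set (Sym2 V) := {e | ∃ p ∈ E, e = s(p.1, p.2)}

/-- matchings -/
def IsM (G : Set (Sym2 V)) (M : Finset (Sym2 V)) : Prop :=
  ↑M ⊆ G ∧ ∀ e ∈ M, ∀ f ∈ M, ∀ v, v ∈ e → v ∈ f → e = f

/-- the edges of the cycle `c 0, c 1, …, c (m-1), c 0` -/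
def cyc (c : ℕ → V) (m : ℕ) : Finset (Sym2 V) := (range m).image fun i => s(c i, c ((i + 1) % m))

/-- SAC: the instance is (vertices, edges, L) -/
def SAC (y : List V × List (V × V) × ℕ) : Prop :=
  ((∀ p ∈ y.2.1, p.1 ≠ p.2 ∧ p.1 ∈ y.1 ∧ p.2 ∈ y.1) ∧ 0 < y.2.2 ∧ y.2.2 ≤ y.1.toFinset.card) ∧
  ∃ M, IsM (edges y.2.1) M ∧ (∀ N, IsM (edges y.2.1) N → N.card ≤ M.card) ∧
    ∃ (m : ℕ) (c : ℕ → V), 3 ≤ m ∧ Even m ∧ Set.InjOn c (Set.Iio m) ∧ ↑(cyc c m) ⊆ edges y.2.1 ∧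
      m ≤ y.2.2 ∧ 2 * (cyc c m ∩ M).card = m

def cov (M : Finset (Sym2 V)) : Finset V := M.biUnion Sym2.toFinset

theorem mem_cov {M : Finset (Sym2 V)} {v : V} : v ∈ cov M ↔ ∃ u, s(v, u) ∈ M := by
  simp only [cov, mem_biUnion, Sym2.mem_toFinset, Sym2.mem_iff_exists]
  exact ⟨fun ⟨_, a, u, b⟩ => ⟨u, b ▸ a⟩, fun ⟨u, a⟩ => ⟨_, a, u, rfl⟩⟩

section
variable {W : List V} {E : List (V × V)} (hE : ∀ p ∈ E, p.1 ≠ p.2 ∧ p.1 ∈ W ∧ p.2 ∈ W)
include hE

theorem ed {u v : V} (h : s(u, v) ∈ edges E) : u ≠ v ∧ u ∈ W ∧ v ∈ W := by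
  obtain ⟨p, a, b⟩ := h
  have := hE p a
  rcases Sym2.eq_iff.1 b with ⟨rfl, rfl⟩ | ⟨rfl, rfl⟩ <;> tauto

theorem card_cov {M : Finset (Sym2 V)} (h : IsM (edges E) M) :
    (cov M).card = 2 * M.card ∧ cov M ⊆ W.toFinset := by
  refine ⟨?_, fun v hv => (mem_cov.1 hv).elim fun u a => List.mem_toFinset.2 (ed hE (h.1 a)).2.1⟩
  rw [cov, card_biUnion fun e he f hf g => disjoint_left.2 fun v a b => g (h.2 e he f hf v
    (Sym2.mem_toFinset.1 a) (Sym2.mem_toFinset.1 b)), sum_const_nat (m := 2), mul_comm]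
  rintro ⟨u, v⟩ he
  exact (congrArg card Sym2.toFinset_mk_eq).trans (card_pair (ed hE (h.1 he)).1)

variable {π : V → V} (hπ : ∀ v ∈ W, π (π v) = v ∧ s(v, π v) ∈ edges E)
include hπ

theorem perf : ∃ M, IsM (edges E) M ∧ 2 * M.card = W.toFinset.card ∧ ∀ v ∈ W, s(v, π v) ∈ M := by
  have b : ∀ e ∈ W.toFinset.image fun v => s(v, π v), ∀ v ∈ e, e = s(v, π v) := fun e he v hv => by
    obtain ⟨u, h1, rfl⟩ := mem_image.1 he
    rcases Sym2.mem_iff.1 hv with rfl | rfl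
    · rfl
    · rw [(hπ u (by simpa using h1)).1, Sym2.eq_swap]
  have m : IsM (edges E) (W.toFinset.image fun v => s(v, π v)) := ⟨fun e he => by
    obtain ⟨u, h1, rfl⟩ := mem_image.1 he
    exact (hπ u (by simpa using h1)).2, fun e he f hf v c d => (b e he v c).trans (b f hf v d).symm⟩
  refine ⟨_, m, ?_, fun v hv => mem_image_of_mem _ (by simpa)⟩
  rw [← (card_cov hE m).1, Subset.antisymm (card_cov hE m).2 fun v hv =>
    mem_cov.2 ⟨_, mem_image_of_mem _ hv⟩]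

omit hπ in
theorem cov_cyc {M : Finset (Sym2 V)} (h : IsM (edges E) M) (c : ℕ → V) {m : ℕ}
    (hc : Set.InjOn c (Set.Iio m)) : (cov (cyc c m ∩ M)).card = 2 * (cyc c m ∩ M).card ∧
    cov (cyc c m ∩ M) ⊆ (range m).image c ∧ ((range m).image c).card = m := by
  refine ⟨(card_cov hE ⟨fun e he => h.1 (mem_inter.1 he).2, fun e he f hf =>
    h.2 e (mem_inter.1 he).2 f (mem_inter.1 hf).2⟩).1, fun v hv => ?_,
    by rw [card_image_of_injOn (by simpa), card_range]⟩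
  obtain ⟨u, a⟩ := mem_cov.1 hv
  obtain ⟨i, hi, e⟩ := mem_image.1 (mem_inter.1 a).1
  rcases Sym2.eq_iff.1 e with ⟨rfl, -⟩ | ⟨-, rfl⟩
  · exact mem_image_of_mem _ hi
  · exact mem_image_of_mem _ (mem_range.2 (Nat.mod_lt _ (by simp at hi; omega)))

theorem intro {L : ℕ} (h3 : 3 ≤ L) (h2 : L % 2 = 0) (c : ℕ → V) (hc : Set.InjOn c (Set.Iio L))
    (h : ∀ i < L, s(c i, c ((i + 1) % L)) ∈ edges E ∧ (i % 2 = 1 → π (c i) = c ((i + 1) % L))) :
    SAC (W, E, L) := by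
  obtain ⟨M, m1, m2, m3⟩ := perf hE hπ
  obtain ⟨a1, a2, a3⟩ := cov_cyc hE m1 c hc
  refine ⟨⟨hE, by simp; omega, a3.ge.trans (card_le_card fun v hv => ?_)⟩, M, m1, fun N hN => ?_,
    L, c, h3, Nat.even_iff.2 h2, hc, fun e he => ?_, le_rfl, ?_⟩
  · obtain ⟨i, hi, rfl⟩ := mem_image.1 hv
    exact List.mem_toFinset.2 (ed hE (h i (mem_range.1 hi)).1).2.1
  · have := card_le_card (card_cov hE hN).2
    rw [(card_cov hE hN).1] at this
    omega
  · obtain ⟨i, hi, rfl⟩ := mem_image.1 he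
    exact (h i (mem_range.1 hi)).1
  have b : ∀ i < L, i % 2 = 1 → s(c i, c ((i + 1) % L)) ∈ cyc c L ∩ M := fun i hi e =>
    mem_inter.2 ⟨mem_image_of_mem _ (mem_range.2 hi), (h i hi).2 e ▸ m3 _ (ed hE (h i hi).1).2.1⟩
  rw [← a1, Subset.antisymm a2 fun v hv => ?_, a3]
  obtain ⟨i, hi, rfl⟩ := mem_image.1 hv
  rw [mem_range] at hi
  by_cases e : i % 2 = 1
  · exact mem_cov.2 ⟨_, b i hi e⟩
  rcases i with _ | i
  · have := b (L - 1) (by omega) (by omega)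
    rw [Nat.sub_add_cancel (by omega), Nat.mod_self, Sym2.eq_swap] at this
    exact mem_cov.2 ⟨_, this⟩
  · have := b i (by omega) (by omega)
    rw [Nat.mod_eq_of_lt hi, Sym2.eq_swap] at this
    exact mem_cov.2 ⟨_, this⟩

theorem elim {L : ℕ} (h : SAC (W, E, L)) : ∃ (S : Finset V) (μ : V → V), S.Nonempty ∧ S.card ≤ L ∧
    (∀ v ∈ S, μ v ∈ S ∧ ∃ a ∈ S, ∃ b ∈ S, a ≠ b ∧ s(v, a) ∈ edges E ∧ s(v, b) ∈ edges E) ∧
    ∀ v ∈ W, μ (μ v) = v ∧ s(v, μ v) ∈ edges E := by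
  obtain ⟨-, M, m1, m2, m, c, c1, -, c2, c3, c4, c5⟩ := h
  obtain ⟨N, n1, n2, -⟩ := perf hE hπ
  obtain ⟨a1, a2, a3⟩ := cov_cyc hE m1 c c2
  have a4 := m2 N n1
  have a5 := eq_of_subset_of_card_le (card_cov hE m1).2 (by rw [(card_cov hE m1).1]; omega)
  have a6 := eq_of_subset_of_card_le a2 (by omega)
  choose! μ hμ using fun v (hv : v ∈ W) => mem_cov.1 (a5.ge (List.mem_toFinset.2 hv))
  have d : ∀ {v u}, s(v, u) ∈ M → μ v = u := fun h => Sym2.congr_right.1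
    (m1.2 _ (hμ _ (ed hE (m1.1 h)).2.1) _ h _ (Sym2.mem_mk_left ..) (Sym2.mem_mk_left ..))
  refine ⟨(range m).image c, μ, ⟨c 0, mem_image_of_mem _ (by simp; omega)⟩, a3.trans_le c4,
    fun v hv => ⟨?_, ?_⟩, fun v hv => ⟨d (Sym2.eq_swap ▸ hμ v hv), m1.1 (hμ v hv)⟩⟩
  · obtain ⟨u, hu⟩ := mem_cov.1 (a6.ge hv)
    rw [d (mem_inter.1 hu).2]
    exact a2 (mem_cov.2 ⟨v, Sym2.eq_swap ▸ hu⟩)
  · obtain ⟨i, hi, rfl⟩ := mem_image.1 hv
    have b : ∀ i < m, (i + 1 < m ∧ (i + 1) % m = i + 1) ∨ (i + 1 = m ∧ (i + 1) % m = 0) :=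
      fun i hi => (Nat.lt_or_eq_of_le hi).imp (fun h => ⟨h, Nat.mod_eq_of_lt h⟩)
        fun h => ⟨h, h ▸ Nat.mod_self _⟩
    rw [mem_range] at hi
    obtain ⟨j, j1, j2⟩ : ∃ j < m, (j + 1) % m = i := by
      rcases i with _ | i
      · exact ⟨m - 1, by omega, by have := b (m - 1); omega⟩
      · exact ⟨i, by omega, Nat.mod_eq_of_lt hi⟩
    have b1 := b i hi
    have b2 := b j j1
    refine ⟨_, mem_image_of_mem _ (mem_range.2 (Nat.mod_lt (i + 1) (by omega))), _,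
      mem_image_of_mem _ (mem_range.2 j1), fun e => ?_, c3 (mem_image_of_mem _ (mem_range.2 hi)),
      Sym2.eq_swap ▸ j2 ▸ c3 (mem_image_of_mem _ (mem_range.2 j1))⟩
    have := c2 (Nat.mod_lt (i + 1) (by omega)) j1 e
    omega

end

abbrev Y := ℕ × F3
def RR (y : Y) : ℕ := 6 * y.2.length
def LL (y : Y) : ℕ := y.1 * (RR y + 2)
def lt (y : Y) (o : ℕ) : ℕ := bif (lit y.2 o).2 then 2 else 1
def blk (t n c : ℕ) : List V := (List.range n ×ˢ List.range c).map fun p => (t, p)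
def vs (y : Y) : List V := blk 0 y.1 2 ++ blk 1 y.1 (RR y) ++ blk 2 y.1 (RR y) ++
  blk 3 y.2.length 2 ++ blk 4 (3 * y.2.length) (LL y) ++ blk 5 (3 * y.2.length) (LL y)
def adj (y : Y) (u v : V) : Prop :=
  (u.1 = 0 ∧ u.2.2 = 0 ∧ (v.1 = 1 ∨ v.1 = 2) ∧ v.2.1 = u.2.1 ∧ v.2.2 = 0) ∨
  (¬ u.1 = 0 ∧ ¬ u.1 = 3 ∧ v.1 = u.1 ∧ v.2.1 = u.2.1 ∧ v.2.2 = u.2.2 + 1) ∨
  ((u.1 = 1 ∨ u.1 = 2) ∧ u.2.2 + 1 = RR y ∧ v.1 = 0 ∧ v.2.1 = u.2.1 ∧ v.2.2 = 1) ∨
  (u.1 = 0 ∧ u.2.2 = 1 ∧ v.1 = 0 ∧ v.2.2 = 0 ∧ (v.2.1 = u.2.1 + 1 ∨ (u.2.1 + 1 = y.1 ∧ v.2.1 = 0))) ∨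
  (u.1 = 3 ∧ v.1 = 4 + u.2.2 ∧ v.2.1 / 3 = u.2.1 ∧ v.2.2 = 0) ∨
  (4 ≤ u.1 ∧ u.2.2 + 1 = LL y ∧ v.1 = lt y u.2.1 ∧ v.2.1 = (lit y.2 u.2.1).1 ∧
    v.2.2 + 4 = 2 * u.2.1 + u.1)
instance (y : Y) (u v : V) : Decidable (adj y u v) := by unfold adj; infer_instance
def es (y : Y) : List (V × V) := (vs y ×ˢ vs y).filter fun e => decide (adj y e.1 e.2)

def inV (y : Y) (v : V) : Prop := (v.1 = 0 ∧ v.2.1 < y.1 ∧ v.2.2 < 2) ∨
  ((v.1 = 1 ∨ v.1 = 2) ∧ v.2.1 < y.1 ∧ v.2.2 < RR y) ∨ (v.1 = 3 ∧ v.2.1 < y.2.length ∧ v.2.2 < 2) ∨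
  ((v.1 = 4 ∨ v.1 = 5) ∧ v.2.1 < 3 * y.2.length ∧ v.2.2 < LL y)

theorem mem_vs {y : Y} {v : V} : v ∈ vs y ↔ inV y v := by
  obtain ⟨a, b, c⟩ := v
  simp [vs, blk, inV, and_assoc]
  omega

theorem mem_es {y : Y} {u v : V} :
    s(u, v) ∈ edges (es y) ↔ inV y u ∧ inV y v ∧ (adj y u v ∨ adj y v u) := by
  simp only [edges, es, Set.mem_ofPred_eq, List.mem_filter, Prod.exists, List.mem_product, mem_vs,
    decide_eq_true_eq, Sym2.eq_iff]
  constructor
  · rintro ⟨_, _, _, _, _, _, ⟨⟨a, b⟩, c⟩, ⟨rfl, rfl⟩ | ⟨rfl, rfl⟩⟩ <;> simp [*]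
  · rintro ⟨a, b, c | c⟩
    exacts [⟨_, _, _, _, _, _, ⟨⟨a, b⟩, c⟩, .inl ⟨rfl, rfl⟩⟩,
      ⟨_, _, _, _, _, _, ⟨⟨b, a⟩, c⟩, .inr ⟨rfl, rfl⟩⟩]

theorem lt12 (y : Y) (o : ℕ) : lt y o = 1 ∨ lt y o = 2 := by
  unfold lt; cases (lit y.2 o).2 <;> simp

theorem val (y : Y) : ∀ p ∈ es y, p.1 ≠ p.2 ∧ p.1 ∈ vs y ∧ p.2 ∈ vs y := by
  rintro ⟨u, v⟩ h
  simp only [es, List.mem_filter, List.mem_product, decide_eq_true_eq] at h
  refine ⟨?_, h.1⟩
  rintro (rfl : u = v)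
  have := lt12 y u.2.1
  have := h.2
  unfold adj at this
  omega

def Val (y : Y) : Prop := 0 < y.1 ∧ (∀ o < 3 * y.2.length, (lit y.2 o).1 < y.1) ∧
  ∀ x < y.1, ∃ j < y.2.length, ∀ i < 3, (lit y.2 (3 * j + i)).1 = x

def pi (y : Y) (ch : ℕ → ℕ) (v : V) : V :=
  if v.1 = 0 then (if v.2.2 = 0 then (0, if v.2.1 = 0 then y.1 - 1 else v.2.1 - 1, 1) else
    (0, if v.2.1 + 1 = y.1 then 0 else v.2.1 + 1, 0))
  else if v.1 < 3 then (if v.2.2 / 2 % 3 = ch (v.2.2 / 2 / 3) ∧ v.1 = lt y (v.2.2 / 2) ∧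
      v.2.1 = (lit y.2 (v.2.2 / 2)).1 then (4 + v.2.2 % 2, v.2.2 / 2, LL y - 1) else
    (v.1, v.2.1, if v.2.2 % 2 = 0 then v.2.2 + 1 else v.2.2 - 1))
  else if v.1 = 3 then (4 + v.2.2, 3 * v.2.1 + ch v.2.1, 0)
  else if v.2.1 % 3 = ch (v.2.1 / 3) then (if v.2.2 = 0 then (3, v.2.1 / 3, v.1 - 4) else
    if v.2.2 + 1 = LL y then (lt y v.2.1, (lit y.2 v.2.1).1, 2 * v.2.1 + (v.1 - 4)) else
    (v.1, v.2.1, if v.2.2 % 2 = 0 then v.2.2 - 1 else v.2.2 + 1))
  else (v.1, v.2.1, if v.2.2 % 2 = 0 then v.2.2 + 1 else v.2.2 - 1)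

theorem LL2 {y : Y} (hv : Val y) : LL y % 2 = 0 ∧ 8 ≤ LL y ∧ RR y = 6 * y.2.length ∧
    0 < y.2.length := by
  obtain ⟨j, hj, -⟩ := hv.2.2 0 hv.1
  have := Nat.mul_le_mul_right (RR y + 2) hv.1
  refine ⟨?_, by unfold LL RR at *; omega, rfl, by omega⟩
  rw [LL, RR, show 6 * y.2.length + 2 = 2 * (3 * y.2.length + 1) by ring, mul_left_comm]
  omega

theorem st (y : Y) {t r r' : ℕ} (x : ℕ) (h0 : ¬ t = 0) (h3 : ¬ t = 3) (h : r' = r + 1 ∨ r = r' + 1) :
    adj y (t, x, r) (t, x, r') ∨ adj y (t, x, r') (t, x, r) :=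
  h.imp (fun h => .inr (.inl ⟨h0, h3, rfl, rfl, h⟩)) fun h => .inr (.inl ⟨h0, h3, rfl, rfl, h⟩)

theorem hpi {y : Y} (hv : Val y) {ch : ℕ → ℕ} (hc : ∀ j, ch j < 3) : ∀ v ∈ vs y,
    pi y ch (pi y ch v) = v ∧ s(v, pi y ch v) ∈ edges (es y) := by
  rintro ⟨t, x, r⟩ h
  have h0 := mem_vs.1 h
  obtain ⟨l1, l2, l3, l4⟩ := LL2 hv
  have l5 := hv.1
  rw [mem_es]
  rcases h0 with ⟨rfl, h1, h2⟩ | ⟨h0, h1, h2⟩ | ⟨rfl, h1, h2⟩ | ⟨h0, h1, h2⟩ <;>
    simp only at h1 h2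
  · interval_cases r <;> simp only [pi, inV, adj] <;> simp <;> split_ifs <;> omega
  · have e1 : (r + 1) / 2 = r / 2 ∨ r % 2 = 1 := by omega
    have e2 : (r - 1) / 2 = r / 2 ∨ r % 2 = 0 := by omega
    by_cases e : r / 2 % 3 = ch (r / 2 / 3) ∧ t = lt y (r / 2) ∧ x = (lit y.2 (r / 2)).1
    · have p : pi y ch (t, x, r) = (4 + r % 2, r / 2, LL y - 1) := by
        simp only [pi]; rw [if_neg (by omega), if_pos (by omega), if_pos e]
      rw [p]
      refine ⟨?_, by simp only [inV, adj]; omega⟩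
      simp only [pi]
      rw [if_neg (by omega), if_neg (by omega), if_neg (by omega), if_pos e.1, if_neg (by omega),
        if_pos (by omega), ← e.2.1, ← e.2.2]
      simp; omega
    · have p : pi y ch (t, x, r) = (t, x, if r % 2 = 0 then r + 1 else r - 1) := by
        simp only [pi]; rw [if_neg (by omega), if_pos (by omega), if_neg e]
      rw [p]
      refine ⟨?_, mem_vs.1 h, by simp only [inV]; split_ifs <;> omega,
        st y x (by omega) (by omega) (by split_ifs <;> omega)⟩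
      simp only [pi]
      rw [if_neg (by omega), if_pos (by omega), show (if r % 2 = 0 then r + 1 else r - 1) / 2 = r / 2
        by split_ifs <;> omega, if_neg e]
      simp; split_ifs <;> omega
  · have := hc x
    have e1 : (3 * x + ch x) / 3 = x := by omega
    have e2 : (3 * x + ch x) % 3 = ch x := by omega
    interval_cases r <;> simp only [pi, inV, adj] <;> simp [e1, e2] <;> omega
  · have := lt12 y x
    have := hv.2.1 x h1
    have e0 : ¬ t = 0 ∧ ¬ t < 3 ∧ ¬ t = 3 := by omega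
    by_cases e : x % 3 = ch (x / 3)
    · by_cases e1 : r = 0
      · simp only [pi, inV, adj, e0, e, e1]; simp; omega
      by_cases e2 : r + 1 = LL y
      · have p : pi y ch (t, x, r) = (lt y x, (lit y.2 x).1, 2 * x + (t - 4)) := by
          simp [pi, e0, e, e1, e2]
        rw [p]
        refine ⟨?_, mem_vs.1 h, by simp only [inV]; omega,
          .inl (.inr (.inr (.inr (.inr (.inr ⟨by omega, e2, rfl, rfl, by simp only; omega⟩)))))⟩
        simp only [pi]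
        rw [if_neg (by omega), if_pos (by omega), show (2 * x + (t - 4)) / 2 = x by omega,
          if_pos ⟨e, rfl, rfl⟩]
        simp; omega
      · have p : pi y ch (t, x, r) = (t, x, if r % 2 = 0 then r - 1 else r + 1) := by
          simp [pi, e0, e, e1, e2]
        rw [p]
        refine ⟨?_, mem_vs.1 h, by simp only [inV]; split_ifs <;> omega,
        st y x (by omega) (by omega) (by split_ifs <;> omega)⟩
        simp only [pi, e0, e, if_false, if_true]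
        rcases Nat.mod_two_eq_zero_or_one r with g | g <;> simp only [g, if_true, one_ne_zero, if_false] <;>
          rw [if_neg (by omega), if_neg (by omega)] <;> simp <;> (try split_ifs) <;> omega
    · have p : pi y ch (t, x, r) = (t, x, if r % 2 = 0 then r + 1 else r - 1) := by
        simp [pi, e0, e]
      rw [p]
      refine ⟨?_, mem_vs.1 h, by simp only [inV]; split_ifs <;> omega,
        st y x (by omega) (by omega) (by split_ifs <;> omega)⟩
      simp only [pi, e0, e, if_false]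
      split_ifs <;> simp <;> omega

def SATy (y : Y) : Prop := ∃ σ : ℕ → Bool, ∀ j < y.2.length, ∃ i < 3,
  σ (lit y.2 (3 * j + i)).1 = (lit y.2 (3 * j + i)).2

theorem nxt {n D i : ℕ} (hi : i < n * D) : i / D < n ∧ i % D < D ∧
    ((i % D + 1 < D ∧ (i + 1) % (n * D) / D = i / D ∧ (i + 1) % (n * D) % D = i % D + 1) ∨
    (i % D + 1 = D ∧ (i + 1) % (n * D) % D = 0 ∧
      (i + 1) % (n * D) / D = if i / D + 1 = n then 0 else i / D + 1)) := by
  have h0 : 0 < D := Nat.pos_of_mul_pos_left (by omega : 0 < n * D)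
  have h1 : i / D < n := (Nat.div_lt_iff_lt_mul h0).2 hi
  have h2 := Nat.mod_lt i h0
  have h3 := Nat.div_add_mod i D
  have h4 : D * (i / D + 1) ≤ n * D := mul_comm D n ▸ Nat.mul_le_mul_left D h1
  refine ⟨h1, h2, (Nat.lt_or_eq_of_le h2).imp (fun h => ?_) fun h => ?_⟩
  · rw [Nat.mod_eq_of_lt (show i + 1 < n * D by rw [Nat.mul_succ] at h4; omega)]
    exact ⟨h, ((Nat.div_mod_unique h0).2 ⟨by omega, h⟩)⟩
  · have e : i + 1 = D * (i / D + 1) := by rw [Nat.mul_succ]; omega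
    refine ⟨h, by rw [Nat.mod_mul_left_mod, e, Nat.mul_mod_right], ?_⟩
    split_ifs with g
    · rw [e, g, mul_comm, Nat.mod_self, Nat.zero_div]
    · rw [e, Nat.mod_eq_of_lt (mul_comm D n ▸ Nat.mul_lt_mul_of_pos_left (by omega) h0),
        Nat.mul_div_cancel_left _ h0]

theorem fwd {y : Y} (hv : Val y) (h : SATy y) : SAC (vs y, es y, LL y) := by
  obtain ⟨σ, h⟩ := h
  have : ∀ j, ∃ i < 3, j < y.2.length → σ (lit y.2 (3 * j + i)).1 = (lit y.2 (3 * j + i)).2 :=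
    fun j => (em (j < y.2.length)).elim (fun e => (h j e).imp fun i a => ⟨a.1, fun _ => a.2⟩)
      fun e => ⟨0, by omega, fun a => absurd a e⟩
  choose ch c1 c2 using this
  obtain ⟨l1, l2, l3, l4⟩ := LL2 hv
  let τ : ℕ → ℕ := fun x => bif σ x then 1 else 2
  have t1 : ∀ x, τ x = 1 ∨ τ x = 2 := fun x => by cases e : σ x <;> simp [τ, e]
  let f : ℕ → ℕ → V := fun x r => if r = 0 then (0, x, 0) else if r = RR y + 1 then (0, x, 1) else
    (τ x, x, r - 1)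
  refine intro (val y) (hpi hv c1) (by omega) l1 (fun i => f (i / (RR y + 2)) (i % (RR y + 2)))
    (fun a _ b _ e => ?_) fun i hi => ?_
  · have := t1 (a / (RR y + 2))
    have := t1 (b / (RR y + 2))
    have : a / (RR y + 2) = b / (RR y + 2) ∧ a % (RR y + 2) = b % (RR y + 2) := by
      simp only [f] at e
      split_ifs at e <;> simp only [Prod.mk.injEq] at e <;> omega
    rw [← Nat.div_add_mod a (RR y + 2), this.1, this.2, Nat.div_add_mod]
  have e0 : i % 2 = i % (RR y + 2) % 2 := (Nat.mod_mod_of_dvd i (by omega)).symm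
  obtain ⟨a1, a2, ⟨a3, a4, a5⟩ | ⟨a3, a5, a4⟩⟩ := nxt hi <;> rw [LL, a4, a5, mem_es, e0] <;>
    clear a4 a5 e0 hi <;> generalize i / (RR y + 2) = x at * <;> generalize i % (RR y + 2) = r at * <;>
    have := t1 x
  · refine ⟨?_, fun e => ?_⟩
    · by_cases r0 : r = 0
      · simp [f, inV, adj, r0, show RR y ≠ 0 by omega]; omega
      by_cases r1 : r = RR y
      · simp [f, inV, adj, r1, show RR y ≠ 0 by omega]; omega
      simp only [f]
      rw [if_neg r0, if_neg (by omega), if_neg (by omega), if_neg (by omega)]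
      exact ⟨by simp only [inV]; omega, by simp only [inV]; omega,
        st y x (by omega) (by omega) (by omega)⟩
    · have g : ¬ ((r - 1) / 2 % 3 = ch ((r - 1) / 2 / 3) ∧ τ x = lt y ((r - 1) / 2) ∧
          x = (lit y.2 ((r - 1) / 2)).1) := fun ⟨g1, g2, g3⟩ => by
        have := c2 ((r - 1) / 2 / 3) (by omega)
        rw [← g1, Nat.div_add_mod, ← g3] at this
        simp only [τ, lt, this] at g2
        cases g : (lit y.2 ((r - 1) / 2)).2 <;> simp [g] at g2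
      simp only [f]
      rw [if_neg (by omega), if_neg (by omega), if_neg (by omega), if_neg (by omega)]
      simp only [pi]
      rw [if_neg (by omega), if_pos (by omega), if_neg g, if_pos (by omega)]
      simp; omega
  · obtain rfl : r = RR y + 1 := by omega
    simp only [f, inV, adj, pi]
    split_ifs <;> simp <;> omega

theorem bwd {y : Y} (hv : Val y) (h : SAC (vs y, es y, LL y)) : SATy y := by
  obtain ⟨S, μ, s1, s2, s3, s4⟩ := elim (val y) (hpi hv (ch := fun _ => 0) (by simp)) h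
  obtain ⟨l1, l2, l3, l4⟩ := LL2 hv
  simp only [mem_es, mem_vs] at s3 s4
  have two : ∀ v ∈ S, ∀ a b, (∀ u ∈ S, inV y v → inV y u → adj y v u ∨ adj y u v → u = a ∨ u = b) →
      a ∈ S ∧ b ∈ S := fun v hv a b h => by
    obtain ⟨-, c, c1, d, d1, e, f, g⟩ := s3 v hv
    rcases h c c1 f.1 f.2.1 f.2.2 with rfl | rfl <;> rcases h d d1 g.1 g.2.1 g.2.2 with rfl | rfl <;>
      simp_all
  have iv : ∀ v ∈ S, inV y v := fun v hv => by
    obtain ⟨-, c, -, d, -, -, f, -⟩ := s3 v hv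
    exact f.1
  have hn : ∀ t o r u, 4 ≤ t → inV y u → adj y (t, o, r) u ∨ adj y u (t, o, r) →
      u = (if r = 0 then (3, o / 3, t - 4) else (t, o, r - 1)) ∨ u = if r + 1 = LL y then
        (lt y o, (lit y.2 o).1, 2 * o + (t - 4)) else (t, o, r + 1) := fun t o r ⟨a, b, c⟩ ht h1 h => by
    have := lt12 y b
    have := lt12 y o
    simp only [adj, inV] at h h1
    split_ifs <;> simp only [Prod.mk.injEq, eq_comm (a := t)] <;> omega
  have chain : ∀ t x n, (∀ r < n, (t, x, r) ∈ S → (r ≠ 0 → (t, x, r - 1) ∈ S) ∧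
      (r + 1 ≠ n → (t, x, r + 1) ∈ S)) → ∀ r < n, (t, x, r) ∈ S → ∀ k < n, (t, x, k) ∈ S :=
    fun t x n h r hr h0 k hk => by
    have z : (t, x, 0) ∈ S := by
      induction r with
      | zero => exact h0
      | succ r ih => exact ih (by omega) ((h _ hr h0).1 (by omega))
    induction k with
    | zero => exact z
    | succ k ih => exact (h k (by omega) (ih (by omega))).2 (by omega)
  have a : ∀ v ∈ S, v.1 < 4 := fun ⟨t, o, r⟩ h => by
    by_contra! ht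
    have b := fun r h => two (t, o, r) h _ _ fun u _ _ b => hn t o r u ht b
    have c := chain t o (LL y) (fun r _ h => ⟨fun e => by simpa [e] using (b r h).1,
      fun e => by simpa [e] using (b r h).2⟩) r (by have := iv _ h; simp [inV] at this; omega) h
    have d := card_le_card (s := insert (3, o / 3, t - 4) ((range (LL y)).image fun k => (t, o, k)))
      (t := S) (insert_subset (by simpa using (b 0 (c 0 (by omega))).1)
        (image_subset_iff.2 fun k hk => c k (mem_range.1 hk)))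
    rw [card_insert_of_notMem (by simp; omega), card_image_of_injective _ fun a b e => by simpa using e,
      card_range] at d
    omega
  have b : ∀ t x r, t = 1 ∨ t = 2 → (t, x, r) ∈ S → (∀ k < RR y, (t, x, k) ∈ S) ∧
      (0, x, 0) ∈ S ∧ (0, x, 1) ∈ S := fun t x r ht h => by
    have b := fun r h => two (t, x, r) h (if r = 0 then (0, x, 0) else (t, x, r - 1))
      (if r + 1 = RR y then (0, x, 1) else (t, x, r + 1)) fun ⟨c, d, e⟩ hu _ g' g => by
        have : c < 4 := a _ hu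
        simp only [adj, inV] at g g'
        split_ifs <;> simp only [Prod.mk.injEq, eq_comm (a := t)] <;> omega
    have c := chain t x (RR y) (fun r _ h => ⟨fun e => by simpa [e] using (b r h).1,
      fun e => by simpa [e] using (b r h).2⟩) r (by have := iv _ h; simp [inV] at this; omega) h
    refine ⟨c, by simpa using (b 0 (c 0 (by omega))).1, ?_⟩
    have := (b (RR y - 1) (c _ (by omega))).2
    rwa [if_pos (by omega)] at this
  have c : ∀ j < y.2.length, ∃ i < 3, (lt y (3 * j + i), (lit y.2 (3 * j + i)).1, 0) ∉ S := by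
    intro j hj
    obtain ⟨d1, -, d2, d3⟩ := s4 (3, j, 0) (by simp [inV, hj])
    obtain ⟨o, o1, o2⟩ : ∃ o, o / 3 = j ∧ μ (3, j, 0) = (4, o, 0) := by
      generalize μ (3, j, 0) = u at *
      obtain ⟨c, d, e⟩ := u
      have := lt12 y d
      simp [adj] at d3
      exact ⟨d, by simp; omega⟩
    have e : ∀ k, 2 * k + 1 < LL y → μ (4, o, 2 * k + 1) ≠ (4, o, 2 * k) := fun k => by
      induction k with
      | zero =>
        intro _ g
        have := (s4 (4, o, 1) (by simp [inV]; omega)).1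
        rw [g, ← o2, d1] at this
        simp at this
      | succ k ih =>
        intro hk g
        have i1 := s4 (4, o, 2 * k + 1) (by simp [inV]; omega)
        have i2 := (hn _ _ _ _ le_rfl i1.2.2.1 i1.2.2.2).resolve_left (by simpa using ih (by omega))
        have i3 := (s4 (4, o, 2 * (k + 1) + 1) (by simp [inV]; omega)).1
        rw [if_neg (by omega)] at i2
        rw [g, show 2 * (k + 1) = 2 * k + 1 + 1 by ring, ← i2, i1.1] at i3
        simp at i3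
    have i1 := s4 (4, o, 2 * (LL y / 2 - 1) + 1) (by simp [inV]; omega)
    have i2 := (hn _ _ _ _ le_rfl i1.2.2.1 i1.2.2.2).resolve_left (by simpa using e _ (by omega))
    rw [if_pos (by omega)] at i2
    refine ⟨o % 3, by omega, fun g => ?_⟩
    rw [← o1, Nat.div_add_mod] at g
    have := a _ (s3 _ (i2 ▸ (b _ _ _ (lt12 y o) g).1 _ (by omega))).1
    rw [i1.1] at this
    simp at this
  have d : ∀ x < y.1, ¬ ((0, x, 0) ∈ S ∧ (1, x, 0) ∈ S ∧ (2, x, 0) ∈ S) := fun x hx h => by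
    obtain ⟨j, hj, e⟩ := hv.2.2 x hx
    obtain ⟨i, hi, g⟩ := c j hj
    rw [e i hi] at g
    rcases lt12 y (3 * j + i) with k | k <;> rw [k] at g <;> tauto
  have e : ∀ x s, (0, x, s) ∈ S → ((1, x, 0) ∈ S ∨ (2, x, 0) ∈ S) ∧
      (0, if x + 1 = y.1 then 0 else x + 1, 0) ∈ S := by
    have e : ∀ x s, (0, x, s) ∈ S → (1, x, 0) ∈ S ∨ (2, x, 0) ∈ S := fun x s h => by
      obtain ⟨-, ⟨c, c', c''⟩, c1, ⟨d, d', d''⟩, d1, e, f, g⟩ := s3 _ h
      have : c < 4 := a _ c1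
      have : d < 4 := a _ d1
      simp [adj, inV] at e f g
      have : ((c = 1 ∨ c = 2) ∧ c' = x) ∨ ((d = 1 ∨ d = 2) ∧ d' = x) := by omega
      rcases this with ⟨rfl | rfl, rfl⟩ | ⟨rfl | rfl, rfl⟩
      exacts [.inl ((b _ _ _ (by simp) c1).1 0 (by omega)), .inr ((b _ _ _ (by simp) c1).1 0 (by omega)),
        .inl ((b _ _ _ (by simp) d1).1 0 (by omega)), .inr ((b _ _ _ (by simp) d1).1 0 (by omega))]
    refine fun x s h => ⟨e x s h, ?_⟩
    have x1 : x < y.1 := by have := iv _ h; simp [inV] at this; omega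
    obtain ⟨t, t1, t2⟩ : ∃ t, (t = 1 ∨ t = 2) ∧ (t, x, 0) ∈ S :=
      (e x s h).elim (fun h => ⟨1, by simp, h⟩) fun h => ⟨2, by simp, h⟩
    refine (two _ (b _ _ _ t1 t2).2.2 (t, x, RR y - 1) _ fun ⟨c, c', c''⟩ hu _ g1 g => ?_).2
    have : c < 4 := a _ hu
    have : ¬ (c = 3 - t ∧ c' = x) := by
      rintro ⟨rfl, rfl⟩
      have := (b _ _ _ (by omega) hu).1 0 (by omega)
      rcases t1 with rfl | rfl <;> exact d _ x1 ⟨(b _ _ _ (by simp) t2).2.1, by assumption, by assumption⟩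
    simp [adj, inV] at g g1
    split_ifs <;> simp only [Prod.mk.injEq, eq_comm (a := t)] <;> omega
  obtain ⟨x, x1, x2⟩ : ∃ x < y.1, (0, x, 0) ∈ S := by
    obtain ⟨⟨t, x, r⟩, h⟩ := s1
    rcases iv _ h with ⟨rfl, g, -⟩ | ⟨g, g', -⟩ | ⟨rfl, -⟩ | g
    · exact ⟨_, by simp only at g; split_ifs <;> omega, (e x r h).2⟩
    · exact ⟨x, g', (b _ _ _ g h).2.1⟩
    · obtain ⟨-, ⟨c, c', c''⟩, c1, -, -, -, f, -⟩ := s3 _ h
      have : c < 4 := a _ c1
      have := lt12 y c'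
      simp [adj] at f
      omega
    · have := a _ h
      omega
  have f : ∀ x, (0, x, 0) ∈ S → ∀ k, x + k < y.1 → (0, x + k, 0) ∈ S := by
    intro x h k
    induction k with
    | zero => exact fun _ => h
    | succ k ih =>
      intro g
      have := (e _ _ (ih (by omega))).2
      rwa [if_neg (by omega)] at this
  have g := (e _ _ (f x x2 (y.1 - 1 - x) (by omega))).2
  rw [if_pos (by omega)] at g
  refine ⟨fun x => decide ((1, x, 0) ∈ S), fun j hj => (c j hj).imp fun i ⟨h1, h2⟩ => ⟨h1, ?_⟩⟩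
  have h3 := (e _ _ (f 0 g _ (by simpa using hv.2.1 (3 * j + i) (by omega)))).1
  rw [zero_add] at h3
  cases k : (lit y.2 (3 * j + i)).2 <;> simp only [lt, k, cond] at h2
  · exact decide_eq_false h2
  · exact decide_eq_true (h3.resolve_right h2)

def gd (φ : F3) : Y := (nv φ, φ ++ (List.range (nv φ)).map fun x => ((x, true), (x, false), (x, false)))

theorem lit_gd (φ : F3) (j i : ℕ) (hi : i < 3) : (j < φ.length → lit (gd φ).2 (3 * j + i) =
    lit φ (3 * j + i)) ∧ (j < nv φ → lit (gd φ).2 (3 * (φ.length + j) + i) = (j, decide (i = 0))) := by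
  have e : ∀ j, (3 * j + i) / 3 = j ∧ (3 * j + i) % 3 = i := fun j => by omega
  refine ⟨fun h => by simp only [lit, gd, e, List.getD_append _ _ _ _ h], fun h => ?_⟩
  simp only [lit, gd, e]
  rw [List.getD_append_right _ _ _ _ (by omega), List.getD_eq_getElem _ _ (by simpa)]
  interval_cases i <;> simp

theorem result : NPHard SAC := by
  refine (hard_SAT3.red (fun φ => (vs (gd φ), es (gd φ), LL (gd φ)))
    (PT.comp (f := fun y : Y => (vs y, es y, LL y)) (by unfold es vs blk adj lt LL RR; fun_prop)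
      (by unfold gd; fun_prop)) fun φ => ?_).npHard
  have l : (gd φ).2.length = φ.length + nv φ := by simp [gd]
  have hv : Val (gd φ) := ⟨Nat.succ_pos _, fun o ho => ?_, fun x hx => ⟨φ.length + x,
    by rw [l]; exact Nat.add_lt_add_left hx _, fun i hi => by rw [(lit_gd φ x i hi).2 hx]⟩⟩
  · rw [sat_iff]
    refine ⟨fun ⟨σ, h⟩ => fwd hv ⟨σ, fun j hj => ?_⟩, fun h => (bwd hv h).imp fun σ h j hj =>
      (h j (by omega)).imp fun i ⟨a, b⟩ => ⟨a, (lit_gd φ j i a).1 hj ▸ b⟩⟩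
    by_cases e : j < φ.length
    · exact (h j e).imp fun i ⟨a, b⟩ => ⟨a, ((lit_gd φ j i a).1 e).symm ▸ b⟩
    · obtain ⟨x, rfl⟩ := Nat.exists_eq_add_of_le (not_lt.1 e)
      refine ⟨bif σ x then 0 else 1, by cases σ x <;> simp, ?_⟩
      rw [(lit_gd φ x _ (by cases σ x <;> simp)).2 (by omega)]
      cases σ x <;> simp
  · rw [← Nat.div_add_mod o 3]
    by_cases e : o / 3 < φ.length
    · rw [(lit_gd φ _ _ (by omega)).1 e]
      exact lit_lt φ _
    · obtain ⟨x, e⟩ := Nat.exists_eq_add_of_le (not_lt.1 e)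
      rw [e, (lit_gd φ x _ (by omega)).2 (by omega)]
      show x < nv φ
      omega

end Pool.Agent.Results.MP_cb63a5_lc.NPHard
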